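import Pool.Agent.Helper77.OF4.St

set_option autoImplicit false

namespace Pool.Agent.Helper79.OF4.SV

open Equiv Equiv.Perm Pool.Agent.Helper35.PM Pool.Agent.Helper77.HY Pool.Agent.Helper77.OF4

theorem main : StSv := by
  intro V D _ M k p hO hd
  classical
  obtain ⟨O, hcard, hOd⟩ := hO
  have hex : ∀ o : D, (∃ e, M.φ.SameCycle o e ∧ M.t e = p) → ∃ e, M.φ.SameCycle o e ∧ M.t e = p :=
    fun o h => h
  let g : D → D := fun o => if h : (∃ e, M.φ.SameCycle o e ∧ M.t e = p) then h.choose else o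
  have hg : ∀ o, (∃ e, M.φ.SameCycle o e ∧ M.t e = p) → M.φ.SameCycle o (g o) ∧ M.t (g o) = p := by
    intro o h
    have : g o = h.choose := dif_pos h
    rw [this]
    exact h.choose_spec
  refine ⟨M.r, (O.filter fun o => ∃ e, M.φ.SameCycle o e ∧ M.t e = p).image g, M.pl, ?_, ?_, ⟨?_, ?_⟩, ?_⟩
  · intro d _
    rfl
  · intro d d' h1 h2
    apply M.trans
    rw [Set.mem_singleton_iff] at h1 h2
    rw [h1, h2]
  · exact (Finset.card_image_le.trans (Finset.card_filter_le _ _)).trans hcard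
  · intro d hodd
    obtain ⟨o, hoO, hod⟩ := hOd d hodd
    obtain ⟨e, hde, hep⟩ := hd d hodd
    have hoe : ∃ e, M.φ.SameCycle o e ∧ M.t e = p := ⟨e, hod.trans hde, hep⟩
    refine ⟨g o, ?_, ?_⟩
    · rw [Finset.mem_image]
      exact ⟨o, Finset.mem_filter.2 ⟨hoO, hoe⟩, rfl⟩
    · exact (hg o hoe).1.symm.trans hod
  · intro o ho
    rw [Finset.mem_image] at ho
    obtain ⟨o', ho', rfl⟩ := ho
    exact (hg o' (Finset.mem_filter.1 ho').2).2

end Pool.Agent.Helper79.OF4.SV
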